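import Mathlib

/-!
# Degenerations of complete intersections and Hasse–Witt matrices
-/

set_option autoImplicit false

open MvPolynomial

namespace Pool.Agent.V8H79.TR

/-- the Hasse–Witt matrix: the entry `a, b` is the coefficient of `x ^ (p v_a - v_b)` in `f ^ (p - 1)` -/
noncomputable def hws {R σ α : Type*} [CommRing R] (p : ℕ) (v : α → σ →₀ ℕ)
    (f : MvPolynomial σ R) : Matrix α α R :=
  Matrix.of fun a b => coeff (p • v a) (monomial (v b) 1 * f ^ (p - 1))

/-- `u` is in the interior of the sum of the convex hulls of the sets `S j`: `N u` is a sum of `N`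
elements of each of the sets `S j`, and all elements of the `S j` occur in these sums -/
def RelInt {σ : Type*} {c : ℕ} (N : ℕ) (S : Fin c → Finset (σ →₀ ℕ)) (u : σ →₀ ℕ) : Prop :=
  ∃ n : Fin c → (σ →₀ ℕ) → ℕ, (∀ j, ∀ s ∈ S j, 0 < n j s) ∧ (∀ j, ∑ s ∈ S j, n j s = N) ∧
    ∑ j, ∑ s ∈ S j, n j s • s = N • u

/-- the sets `S j` are the sets of vertices of simplices with linearly independent directions -/
def Simplicial {σ : Type*} {c : ℕ} (S : Fin c → Finset (σ →₀ ℕ)) : Prop :=
  ∀ z : Fin c → (σ →₀ ℕ) → ℤ, (∀ j, ∑ s ∈ S j, z j s = 0) →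
    (∀ l, ∑ j, ∑ s ∈ S j, z j s * (s l : ℤ) = 0) → ∀ j, ∀ s ∈ S j, z j s = 0

/-- equations `f j`, and exponents `v a` -/
structure CI (k : Type) [Field k] where
  /-- the variables -/
  σ : Type
  /-- the set of the exponents -/
  α : Type
  /-- finitely many exponents -/
  fin : Fintype α
  /-- the set of the exponents -/
  dec : DecidableEq α
  /-- the number of the equations -/
  c : ℕ
  /-- the equations -/
  f : Fin c → MvPolynomial σ k
  /-- the exponents -/
  v : α → σ →₀ ℕ

attribute [instance] CI.fin CI.dec

/-- for all finitely generated rings `A` over which the equations are defined, and `g ≠ 0` in `A`, all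
Hasse–Witt matrices are invertible at closed points of `Spec A`, outside of `g = 0`, over all large
primes `p` in `P` -/
def DenseOrd {k ι : Type} [Field k] (P : Set ℕ) (X : ι → CI k) : Prop :=
  ∀ A : Subalgebra ℤ k, A.FG → ∀ F : ∀ i, Fin (X i).c → MvPolynomial (X i).σ A,
    (∀ i j, map (algebraMap A k) (F i j) = (X i).f j) → ∀ g : A, g ≠ 0 →
    ∃ N : ℕ, ∀ p : ℕ, N ≤ p → p.Prime → p ∈ P → ∃ M : Ideal A, M.IsMaximal ∧ (p : A) ∈ M ∧ g ∉ M ∧
      ∀ i, (hws p (X i).v (∏ j, map (Ideal.Quotient.mk M) (F i j))).det ≠ 0

/-- a degeneration over a valuation ring: the exponents are distributed to cells `i`, for each cell there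
is a torus element `y i` and scalars `τ i j` with `f j (x) = τ i j * F i j (y i x)`, the coefficients
of `F i j` are in the valuation ring -/
structure Deg (K : Type) [Field K] (O : ValuationSubring K) extends CI K where
  /-- finitely many variables -/
  finσ : Fintype σ
  /-- the number of the cells -/
  m : ℕ
  /-- the cells of the exponents -/
  cell : α → Fin m
  /-- scalars -/
  τ : Fin m → Fin c → K
  /-- elements of the torus -/
  y : Fin m → σ → K
  /-- the scaled equations -/
  F : Fin m → Fin c → MvPolynomial σ O

attribute [instance] Deg.finσ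

variable {K : Type} [Field K] {O : ValuationSubring K}

/-- the initial forms of the cell `i`, over the residue field, with the exponents of the cell `i` -/
noncomputable def Deg.init (X : Deg K O) (i : Fin X.m) : CI (IsLocalRing.ResidueField O) where
  σ := X.σ
  α := {a : X.α // X.cell a = i}
  fin := inferInstance
  dec := inferInstance
  c := X.c
  f := fun j => map (IsLocalRing.residue O) (X.F i j)
  v := fun a => X.v a.1

/-- the exponents which occur in the initial forms -/
noncomputable def Deg.supp (X : Deg K O) (i : Fin X.m) (j : Fin X.c) : Finset (X.σ →₀ ℕ) :=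
  (map (IsLocalRing.residue O) (X.F i j)).support

/-- the conditions -/
structure Deg.IsDeg (X : Deg K O) (N : ℕ) : Prop where
  /-- `N` is positive -/
  pos : 0 < N
  /-- the exponents are distinct -/
  inj : Function.Injective X.v
  /-- the scalars are not zero -/
  τ0 : ∀ i j, X.τ i j ≠ 0
  /-- elements of the torus -/
  y0 : ∀ i l, X.y i l ≠ 0
  /-- `f j (x) = τ i j * F i j (y i x)` -/
  scale : ∀ i j u, coeff u (X.f j) =
    X.τ i j * (∏ l, X.y i l ^ u l) * algebraMap O K (coeff u (X.F i j))
  /-- the exponents are in the interior of their cells -/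
  rel : ∀ a, RelInt N (X.supp (X.cell a)) (X.v a)
  /-- the cells are numbered compatibly with the inclusions, different cells have different supports -/
  mono : ∀ a b, (∀ j, X.supp (X.cell a) j ⊆ X.supp (X.cell b) j) → X.cell a ≤ X.cell b

end Pool.Agent.V8H79.TR
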