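import Pool.Agent.V8H79.TR.Defs

/-!
# Commutative algebra: primes over `p`
-/

set_option autoImplicit false

open MvPolynomial

namespace Pool.Agent.V8H79.TR

theorem torsion_bound (C : Type*) [CommRing C] [IsNoetherianRing C] :
    ∃ n : ℕ, n ≠ 0 ∧ ∀ p : ℕ, p.Prime → ¬ p ∣ n → ∀ x : C, (p : C) * x = 0 → x = 0 := by
  classical
  let T : Ideal C :=
    { carrier := {x | ∃ m : ℕ, m ≠ 0 ∧ (m : C) * x = 0}
      add_mem' := by
        rintro a b ⟨m, hm, ha⟩ ⟨m', hm', hb⟩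
        refine ⟨m * m', mul_ne_zero hm hm', ?_⟩
        push_cast
        calc (m : C) * m' * (a + b) = m' * (m * a) + m * (m' * b) := by ring
          _ = 0 := by rw [ha, hb]; ring
      zero_mem' := ⟨1, one_ne_zero, by simp⟩
      smul_mem' := by
        rintro c a ⟨m, hm, ha⟩
        refine ⟨m, hm, ?_⟩
        calc (m : C) * (c • a) = c * (m * a) := by simp only [smul_eq_mul]; ring
          _ = 0 := by rw [ha, mul_zero] }
  have hT : ∀ x, x ∈ T ↔ ∃ m : ℕ, m ≠ 0 ∧ (m : C) * x = 0 := fun x => Iff.rfl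
  obtain ⟨S, hS⟩ : T.FG := IsNoetherian.noetherian T
  have hS' : ∀ s : S, ∃ m : ℕ, m ≠ 0 ∧ (m : C) * s = 0 := fun s => (hT _).1 (by
    rw [← hS]
    exact Submodule.subset_span s.2)
  choose m hm hm' using hS'
  refine ⟨∏ s, m s, Finset.prod_ne_zero_iff.2 fun s _ => hm s, fun p hp hpn x hx => ?_⟩
  have hxT : x ∈ T := ⟨p, hp.ne_zero, hx⟩
  have hkill : ∀ z ∈ T, ((∏ s, m s : ℕ) : C) * z = 0 := by
    intro z hz
    rw [← hS] at hz
    induction hz using Submodule.span_induction with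
    | mem z hz =>
      obtain ⟨c, hc⟩ : m ⟨z, hz⟩ ∣ ∏ s, m s := Finset.dvd_prod_of_mem m (Finset.mem_univ _)
      rw [hc]
      push_cast
      calc (m ⟨z, hz⟩ : C) * c * z = c * (m ⟨z, hz⟩ * z) := by ring
        _ = 0 := by rw [hm' ⟨z, hz⟩, mul_zero]
    | zero => simp
    | add a b _ _ ha hb => rw [mul_add, ha, hb, add_zero]
    | smul c a _ ha => rw [smul_eq_mul, mul_left_comm, ha, mul_zero]
  have hcop : IsCoprime ((∏ s, m s : ℕ) : ℤ) (p : ℤ) :=
    Nat.isCoprime_iff_coprime.2 ((Nat.Prime.coprime_iff_not_dvd hp).2 hpn).symm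
  obtain ⟨a, b, hab⟩ := hcop
  have h1 : (a : C) * ((∏ s, m s : ℕ) : C) + b * (p : C) = 1 := by
    have := congrArg (Int.cast : ℤ → C) hab
    push_cast at this ⊢
    exact this
  calc x = ((a : C) * ((∏ s, m s : ℕ) : C) + b * (p : C)) * x := by rw [h1, one_mul]
    _ = a * (((∏ s, m s : ℕ) : C) * x) + b * ((p : C) * x) := by ring
    _ = 0 := by rw [hkill x hxT, hx]; ring

/-- a prime over `p` below a given prime, which does not contain `h` -/
theorem exists_below (C : Type*) [CommRing C] [IsDomain C] [IsNoetherianRing C] (h : C) (hh : h ≠ 0) :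
    ∃ N : ℕ, ∀ p : ℕ, N ≤ p → p.Prime → ∀ n : Ideal C, n.IsPrime → (p : C) ∈ n →
      ∃ q : Ideal C, q.IsPrime ∧ (p : C) ∈ q ∧ q ≤ n ∧ h ∉ q := by
  obtain ⟨n, hn, hn'⟩ := torsion_bound (C ⧸ Ideal.span {h})
  refine ⟨n + 1, fun p hp hpp m hm hpm => ?_⟩
  have hpn : ¬ p ∣ n := fun hd => by
    have := Nat.le_of_dvd (Nat.pos_of_ne_zero hn) hd
    omega
  have hle : Ideal.span {(p : C)} ≤ m := by
    rw [Ideal.span_singleton_le_iff_mem]
    exact hpm
  obtain ⟨q, hq, hqm⟩ := Ideal.exists_minimalPrimes_le hle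
  refine ⟨q, hq.1.1, hq.1.2 (Ideal.mem_span_singleton_self _), hqm, fun hhq => ?_⟩
  obtain ⟨s, hs, hhs⟩ := Ideal.exists_mul_mem_of_mem_minimalPrimes hq hhq
  apply hs
  rw [Ideal.mem_span_singleton] at hhs
  obtain ⟨b, hb⟩ := hhs
  have h1 : Ideal.Quotient.mk (Ideal.span {h}) b = 0 := by
    apply hn' p hpp hpn
    rw [← map_natCast (Ideal.Quotient.mk (Ideal.span {h})), ← map_mul, ← hb,
      Ideal.Quotient.eq_zero_iff_mem, Ideal.mem_span_singleton]
    exact ⟨s, rfl⟩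
  rw [Ideal.Quotient.eq_zero_iff_mem, Ideal.mem_span_singleton] at h1
  obtain ⟨b', hb'⟩ := h1
  rw [Ideal.mem_span_singleton]
  refine ⟨b', mul_left_cancel₀ hh ?_⟩
  rw [hb, hb']
  ring

theorem jac_int : IsJacobsonRing ℤ := by
  rw [isJacobsonRing_iff_prime_eq]
  intro P hP
  by_cases h : P = ⊥
  · subst h
    rw [eq_bot_iff]
    intro x hx
    rw [Ideal.mem_jacobson_bot] at hx
    have h1 := hx 3
    have h2 := hx (-3)
    rw [Int.isUnit_iff] at h1 h2
    rw [Ideal.mem_bot]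
    omega
  · have : P.IsMaximal := hP.isMaximal h
    exact Ideal.jacobson_eq_self_of_isMaximal

theorem exists_max_of_prime {k : Type} [Field k] (A : Subalgebra ℤ k) (hA : A.FG) (M0 : Ideal A)
    (hM0 : M0.IsPrime) (s : A) (hs : s ∉ M0) : ∃ M : Ideal A, M.IsMaximal ∧ M0 ≤ M ∧ s ∉ M := by
  have hft : Algebra.FiniteType ℤ A := A.fg_iff_finiteType.1 hA
  have hJ : IsJacobsonRing A := by
    haveI := jac_int
    exact isJacobsonRing_of_finiteType (A := ℤ)
  have hjac : M0.jacobson = M0 := isJacobsonRing_iff_prime_eq.mp hJ M0 hM0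
  by_contra hc
  push Not at hc
  apply hs
  rw [← hjac, Ideal.jacobson, Submodule.mem_sInf]
  rintro M ⟨hM1, hM2⟩
  exact hc M hM2 hM1

end Pool.Agent.V8H79.TR
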