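import Pool.Agent.V8H79.TR.PA

/-!
# Closed points over all large primes
-/

set_option autoImplicit false

open MvPolynomial

namespace Pool.Agent.V8H79.TR

theorem exists_point_aux (C : Type) [CommRing C] [Nontrivial C] [Algebra ℚ C]
    [Algebra.FiniteType ℚ C] :
    ∃ (E : Type) (_ : Field E) (_ : CharZero E) (ψ : C →+* E),
      ∀ x, ∃ n : ℕ, n ≠ 0 ∧ IsIntegral ℤ ((n : E) * ψ x) := by
  classical
  obtain ⟨n, hn⟩ := Ideal.exists_maximal C
  let E := C ⧸ n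
  let _ : Field E := Ideal.Quotient.field n
  let _ : Algebra ℚ E := inferInstanceAs (Algebra ℚ (C ⧸ n))
  have hft : Algebra.FiniteType ℚ E :=
    Algebra.FiniteType.of_surjective (Ideal.Quotient.mkₐ ℚ n) (Ideal.Quotient.mkₐ_surjective ℚ n)
  have hfin : Module.Finite ℚ E := finite_of_finite_type_of_isJacobsonRing ℚ E
  have hch : CharZero E := algebraRat.charZero _
  refine ⟨E, inferInstance, hch, Ideal.Quotient.mk n, fun x => ?_⟩
  have h1 : IsAlgebraic ℚ (Ideal.Quotient.mk n x : E) := Algebra.IsAlgebraic.isAlgebraic _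
  have halg : IsAlgebraic ℤ (Ideal.Quotient.mk n x : E) :=
    (IsFractionRing.isAlgebraic_iff ℤ ℚ E).2 h1
  obtain ⟨y, hy, h⟩ := halg.exists_integral_multiple
  refine ⟨y.natAbs, Int.natAbs_ne_zero.2 hy, ?_⟩
  rw [Algebra.smul_def] at h
  rcases Int.natAbs_eq y with h2 | h2
  · have : ((y.natAbs : ℕ) : E) = algebraMap ℤ E y := by
      conv_rhs => rw [h2]
      simp
    rw [this]
    exact h
  · have : ((y.natAbs : ℕ) : E) = - algebraMap ℤ E y := by
      conv_rhs => rw [h2]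
      simp
    rw [this, neg_mul]
    exact h.neg

/-- a finitely generated algebra has a point over a number field -/
theorem exists_point {k : Type} [Field k] [CharZero k] (S : Set k) (hS : S.Finite)
    (B : Subalgebra ℤ k) (hB : B = Algebra.adjoin ℤ S) :
    ∃ (E : Type) (_ : Field E) (_ : CharZero E) (ψ : B →+* E),
      ∀ x, ∃ n : ℕ, n ≠ 0 ∧ IsIntegral ℤ ((n : E) * ψ x) := by
  let C : Subalgebra ℚ k := Algebra.adjoin ℚ S
  have hC : Algebra.FiniteType ℚ C := C.fg_iff_finiteType.1 ⟨hS.toFinset, by simp [C]⟩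
  have hle : B ≤ C.restrictScalars ℤ := by
    rw [hB]
    exact Algebra.adjoin_le fun x hx => Algebra.subset_adjoin hx
  obtain ⟨E, h1, h2, ψ, h3⟩ := exists_point_aux C
  exact ⟨E, h1, h2, ψ.comp (Subalgebra.inclusion hle).toRingHom, fun x => h3 _⟩

theorem exists_closed {k : Type} [Field k] [CharZero k] (B : Subalgebra ℤ k) (hB : B.FG) (h : B)
    (hh : h ≠ 0) : ∃ N : ℕ, ∀ p : ℕ, N ≤ p → p.Prime → ∃ M : Ideal B, M.IsMaximal ∧ (p : B) ∈ M ∧
      h ∉ M := by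
  classical
  obtain ⟨T, hT⟩ := hB
  have hh' : (h : k) ≠ 0 := fun h0 => hh (Subtype.ext h0)
  obtain ⟨B', hB'⟩ : ∃ B' : Subalgebra ℤ k, B' = Algebra.adjoin ℤ ((T : Set k) ∪ {(h : k)⁻¹}) :=
    ⟨_, rfl⟩
  obtain ⟨E, iE1, iE2, ψ, hψ⟩ := exists_point ((T : Set k) ∪ {(h : k)⁻¹})
    (T.finite_toSet.union (Set.finite_singleton _)) B' hB'
  have hle : B ≤ B' := by
    rw [← hT, hB']
    exact Algebra.adjoin_mono fun x hx => Or.inl hx
  have hmem : ∀ x ∈ (T : Set k) ∪ {(h : k)⁻¹}, x ∈ B' := fun x hx => by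
    rw [hB']
    exact Algebra.subset_adjoin hx
  have hfin : ((T : Set k) ∪ {(h : k)⁻¹}).Finite := T.finite_toSet.union (Set.finite_singleton _)
  let G : Finset k := hfin.toFinset
  have hG : ∀ x : G, (x : k) ∈ B' := fun x => hmem _ (hfin.mem_toFinset.1 x.2)
  have hgen : ∀ x : G, ∃ n : ℕ, n ≠ 0 ∧ IsIntegral ℤ ((n : E) * ψ ⟨x, hG x⟩) := fun x => hψ _
  choose n hn hn' using hgen
  set N := ∏ x, n x with hN
  have hN0 : N ≠ 0 := Finset.prod_ne_zero_iff.2 fun x _ => hn x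
  have hNgen : ∀ x (hx : x ∈ B'), x ∈ (T : Set k) ∪ {(h : k)⁻¹} → IsIntegral ℤ ((N : E) * ψ ⟨x, hx⟩) := by
    intro x hx hx'
    obtain ⟨c, hc⟩ : n ⟨x, hfin.mem_toFinset.2 hx'⟩ ∣ N :=
      Finset.dvd_prod_of_mem n (Finset.mem_univ _)
    have h1 : ((N : E) * ψ ⟨x, hx⟩) = (c : E) * (n ⟨x, hfin.mem_toFinset.2 hx'⟩ * ψ ⟨x, hx⟩) := by
      rw [hc]; push_cast; ring
    rw [h1]
    have h2 : IsIntegral ℤ (c : E) := by
      have := isIntegral_algebraMap (R := ℤ) (A := E) (x := (c : ℤ))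
      simpa using this
    exact h2.mul (hn' ⟨x, hfin.mem_toFinset.2 hx'⟩)
  have hNint : IsIntegral ℤ (N : E) := by
    have := isIntegral_algebraMap (R := ℤ) (A := E) (x := (N : ℤ))
    simpa using this
  have hall : ∀ x (hx : x ∈ B'), ∃ m : ℕ, IsIntegral ℤ ((N : E) ^ m * ψ ⟨x, hx⟩) := by
    subst hB'
    intro x hx
    induction hx using Algebra.adjoin_induction with
    | mem y hy => exact ⟨1, by rw [pow_one]; exact hNgen y _ hy⟩
    | algebraMap r =>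
      refine ⟨0, ?_⟩
      have h1 : ψ ⟨algebraMap ℤ k r, Subalgebra.algebraMap_mem _ r⟩ = (r : E) :=
        (congrArg ψ (Subtype.ext (by simp) : (⟨algebraMap ℤ k r, Subalgebra.algebraMap_mem _ r⟩ :
          Algebra.adjoin ℤ ((T : Set k) ∪ {(h : k)⁻¹})) = ((r : ℤ) : _))).trans (map_intCast ψ r)
      rw [pow_zero, one_mul, h1]
      have := isIntegral_algebraMap (R := ℤ) (A := E) (x := r)
      simpa using this
    | add a b ha hb h1 h2 =>
      obtain ⟨m1, h1⟩ := h1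
      obtain ⟨m2, h2⟩ := h2
      refine ⟨m1 + m2, ?_⟩
      have h3 : ψ ⟨a + b, Subalgebra.add_mem _ ha hb⟩ = ψ ⟨a, ha⟩ + ψ ⟨b, hb⟩ := by
        rw [← map_add]; rfl
      rw [h3]
      have h4 : (N : E) ^ (m1 + m2) * (ψ ⟨a, ha⟩ + ψ ⟨b, hb⟩) =
        (N : E) ^ m2 * ((N : E) ^ m1 * ψ ⟨a, ha⟩) + (N : E) ^ m1 * ((N : E) ^ m2 * ψ ⟨b, hb⟩) := by
        ring
      rw [h4]
      exact ((hNint.pow m2).mul h1).add ((hNint.pow m1).mul h2)
    | mul a b ha hb h1 h2 =>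
      obtain ⟨m1, h1⟩ := h1
      obtain ⟨m2, h2⟩ := h2
      refine ⟨m1 + m2, ?_⟩
      have h3 : ψ ⟨a * b, Subalgebra.mul_mem _ ha hb⟩ = ψ ⟨a, ha⟩ * ψ ⟨b, hb⟩ := by
        rw [← map_mul]; rfl
      rw [h3]
      have h4 : (N : E) ^ (m1 + m2) * (ψ ⟨a, ha⟩ * ψ ⟨b, hb⟩) =
        ((N : E) ^ m1 * ψ ⟨a, ha⟩) * ((N : E) ^ m2 * ψ ⟨b, hb⟩) := by
        ring
      rw [h4]
      exact h1.mul h2
  refine ⟨N + 1, fun p hp hpp => ?_⟩
  have hpN : ¬ p ∣ N := fun hd => by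
    have := Nat.le_of_dvd (Nat.pos_of_ne_zero hN0) hd
    omega
  have hpE : (p : E) ≠ 0 := Nat.cast_ne_zero.2 hpp.ne_zero
  -- `p` is not a unit of the image
  have hnu : ¬ IsUnit (p : ψ.range) := by
    rintro hu
    obtain ⟨⟨z, ⟨⟨x, hx⟩, hxz⟩⟩, hz⟩ := hu.exists_right_inv
    have h1 : (p : E) * z = 1 := by
      have := congrArg (Subtype.val : ψ.range → E) hz
      simpa using this
    obtain ⟨m, hm⟩ := hall x hx
    have hz' : z = (p : E)⁻¹ := by field_simp; linear_combination h1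
    rw [hxz, hz'] at hm
    -- `N ^ m / p` is integral and rational
    have h2 : IsIntegral ℤ (((N : ℚ) ^ m * (p : ℚ)⁻¹)) := by
      rw [← isIntegral_algebraMap_iff (B := E) (algebraMap ℚ E).injective]
      simpa using hm
    obtain ⟨w, hw⟩ := IsIntegrallyClosed.isIntegral_iff.1 h2
    have h3 : (w : ℚ) * p = (N : ℚ) ^ m := by
      have : (w : ℚ) = (N : ℚ) ^ m * (p : ℚ)⁻¹ := by simpa using hw
      rw [this]
      field_simp [hpp.ne_zero]
    have h4 : w * (p : ℤ) = (N : ℤ) ^ m := by exact_mod_cast h3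
    have h5 : (p : ℤ) ∣ (N : ℤ) ^ m := ⟨w, by rw [← h4]; ring⟩
    have h6 : p ∣ N ^ m := by exact_mod_cast h5
    exact hpN (hpp.dvd_of_dvd_pow h6)
  obtain ⟨m, hm, hpm⟩ := exists_max_ideal_of_mem_nonunits hnu
  let θ : B →+* ψ.range := ψ.rangeRestrict.comp (Subalgebra.inclusion hle).toRingHom
  have hprime : (m.comap θ).IsPrime := by
    have := hm.isPrime
    exact Ideal.comap_isPrime θ m
  have hhu : IsUnit (θ h) := by
    have h1 : (Subalgebra.inclusion hle).toRingHom h * ⟨(h : k)⁻¹, hmem _ (Or.inr rfl)⟩ = 1 :=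
      Subtype.ext (mul_inv_cancel₀ hh')
    have h2 : IsUnit ((Subalgebra.inclusion hle).toRingHom h) := IsUnit.of_mul_eq_one _ h1
    exact h2.map ψ.rangeRestrict
  have hnot : h ∉ m.comap θ := fun h0 => hm.ne_top (Ideal.eq_top_of_isUnit_mem _ h0 hhu)
  obtain ⟨M, hM1, hM2, hM3⟩ := exists_max_of_prime B ⟨T, hT⟩ _ hprime h hnot
  refine ⟨M, hM1, hM2 ?_, hM3⟩
  rw [Ideal.mem_comap, map_natCast]
  exact hpm

end Pool.Agent.V8H79.TR
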