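import Pool.Agent.V8H79.TR.Defs

/-!
# Scaling
-/

set_option autoImplicit false

open MvPolynomial

namespace Pool.Agent.V8H79.TR

section scale

variable {R σ : Type*} [CommRing R] [Fintype σ]

/-- the scaling `x ↦ y x` -/
noncomputable def sc (y : σ → R) : MvPolynomial σ R →ₐ[R] MvPolynomial σ R :=
  aeval fun l => C (y l) * X l

theorem sc_monomial (y : σ → R) (u : σ →₀ ℕ) (c : R) :
    sc y (monomial u c) = monomial u ((∏ l, y l ^ u l) * c) := by
  classical
  rw [sc, aeval_monomial, Finsupp.prod_fintype _ _ (fun l => pow_zero _)]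
  simp only [mul_pow, Finset.prod_mul_distrib]
  rw [monomial_eq (s := u) (a := (∏ l, y l ^ u l) * c), Finsupp.prod_fintype _ _ (fun l => pow_zero _),
    C_mul, map_prod]
  simp only [map_pow, algebraMap_eq]
  ring

theorem coeff_sc (y : σ → R) (P : MvPolynomial σ R) (u : σ →₀ ℕ) :
    coeff u (sc y P) = (∏ l, y l ^ u l) * coeff u P := by
  classical
  induction P using MvPolynomial.induction_on' with
  | monomial w c =>
    rw [sc_monomial, coeff_monomial, coeff_monomial]
    split_ifs with h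
    · rw [h]
    · rw [mul_zero]
  | add p q hp hq => rw [map_add, coeff_add, coeff_add, hp, hq, mul_add]

/-- the Hasse–Witt matrices of `f` and of `F` -/
theorem hws_scale {α : Type*} {c : ℕ} (f F : Fin c → MvPolynomial σ R) (τ : Fin c → R) (y : σ → R)
    (h : ∀ j u, coeff u (f j) = τ j * (∏ l, y l ^ u l) * coeff u (F j)) (v : α → σ →₀ ℕ) (p : ℕ)
    (hp : 1 ≤ p) (a b : α) :
    hws p v (∏ j, f j) a b * ((∏ j, τ j) * ∏ l, y l ^ v b l) =
      ((∏ j, τ j) * ∏ l, y l ^ v a l) ^ p * hws p v (∏ j, F j) a b := by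
  obtain ⟨n, rfl⟩ : ∃ n, p = n + 1 := ⟨p - 1, by omega⟩
  have h1 : ∀ j, f j = C (τ j) * sc y (F j) := by
    intro j
    ext u
    rw [h, coeff_C_mul, coeff_sc]
    ring
  have h2 : (∏ j, f j) = C (∏ j, τ j) * sc y (∏ j, F j) := by
    rw [map_prod, map_prod, ← Finset.prod_mul_distrib]
    exact Finset.prod_congr rfl fun j _ => h1 j
  unfold hws
  simp only [Matrix.of_apply, Nat.add_sub_cancel]
  have h3 : coeff ((n + 1) • v a) (monomial (v b) 1 * (∏ j, f j) ^ n) * (∏ l, y l ^ v b l) =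
      (∏ j, τ j) ^ n * ((∏ l, y l ^ (((n + 1) • v a : σ →₀ ℕ) l)) *
        coeff ((n + 1) • v a) (monomial (v b) 1 * (∏ j, F j) ^ n)) := by
    rw [← coeff_sc, map_mul, sc_monomial, mul_one, ← coeff_C_mul, mul_comm (coeff _ _), ← coeff_C_mul,
      h2, map_pow]
    congr 1
    have h4 : (monomial (v b) (∏ l, y l ^ v b l) : MvPolynomial σ R) =
        C (∏ l, y l ^ v b l) * monomial (v b) 1 := by
      rw [C_mul_monomial, mul_one]
    rw [h4, mul_pow, ← C_pow, map_pow (sc y)]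
    ring
  have h5 : (∏ l, y l ^ (((n + 1) • v a : σ →₀ ℕ) l)) = (∏ l, y l ^ v a l) ^ (n + 1) := by
    rw [← Finset.prod_pow]
    refine Finset.prod_congr rfl fun l _ => ?_
    rw [Finsupp.smul_apply, smul_eq_mul, mul_comm, pow_mul]
  rw [h5] at h3
  calc coeff ((n + 1) • v a) (monomial (v b) 1 * (∏ j, f j) ^ n) * ((∏ j, τ j) * ∏ l, y l ^ v b l)
      = (∏ j, τ j) * (coeff ((n + 1) • v a) (monomial (v b) 1 * (∏ j, f j) ^ n) *
          (∏ l, y l ^ v b l)) := by ring
    _ = _ := by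
      rw [h3]
      ring

end scale

section rel

variable {K σ : Type*} [Field K] [Fintype σ] {c : ℕ}

theorem prod_rel {R : Type*} [CommRing R] {N : ℕ} {S : Fin c → Finset (σ →₀ ℕ)} {u : σ →₀ ℕ}
    {n : Fin c → (σ →₀ ℕ) → ℕ} (h1 : ∀ j, ∑ s ∈ S j, n j s = N)
    (h2 : ∑ j, ∑ s ∈ S j, n j s • s = N • u) (τ : Fin c → R) (y : σ → R) :
    ((∏ j, τ j) * ∏ l, y l ^ u l) ^ N = ∏ j, ∏ s ∈ S j, (τ j * ∏ l, y l ^ s l) ^ n j s := by
  have h3 : ∀ l, N * u l = ∑ j, ∑ s ∈ S j, n j s * s l := by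
    intro l
    have := DFunLike.congr_fun h2 l
    simp only [Finsupp.coe_smul, Finsupp.coe_finsetSum, Finset.sum_apply, Pi.smul_apply,
      smul_eq_mul] at this
    exact this.symm
  simp only [mul_pow, Finset.prod_mul_distrib, ← Finset.prod_pow]
  congr 1
  · refine Finset.prod_congr rfl fun j _ => ?_
    rw [Finset.prod_pow_eq_pow_sum, h1]
  · simp only [← pow_mul]
    have h4 : ∀ l, y l ^ (u l * N) = ∏ j, ∏ s ∈ S j, y l ^ (s l * n j s) := by
      intro l
      rw [mul_comm (u l), h3]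
      simp only [Finset.prod_pow_eq_pow_sum]
      congr 1
      exact Finset.sum_congr rfl fun j _ => Finset.sum_congr rfl fun s _ => mul_comm _ _
    rw [Finset.prod_congr rfl fun l _ => h4 l, Finset.prod_comm]
    exact Finset.prod_congr rfl fun j _ => Finset.prod_comm

end rel

end Pool.Agent.V8H79.TR
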