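import Pool.Agent.V8H79.TR.PB
import Pool.Agent.V8H79.TR.PC

/-!
# The comparison of the cells, and localization
-/

set_option autoImplicit false

open MvPolynomial

namespace Pool.Agent.V8H79.TR

section rho

variable {K : Type} [Field K] {O : ValuationSubring K}

/-- the value of the affine function of the cell `i` at `u` -/
noncomputable def Xi (X : Deg K O) (i : Fin X.m) (u : X.σ →₀ ℕ) : K :=
  (∏ j, X.τ i j) * ∏ l, X.y i l ^ u l

theorem Xi_ne {X : Deg K O} {N : ℕ} (hX : X.IsDeg N) (i : Fin X.m) (u : X.σ →₀ ℕ) : Xi X i u ≠ 0 :=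
  mul_ne_zero (Finset.prod_ne_zero_iff.2 fun j _ => hX.τ0 i j)
    (Finset.prod_ne_zero_iff.2 fun l _ => pow_ne_zero _ (hX.y0 i l))

theorem mem_of_pow_mem (x : K) (N : ℕ) (hN : 0 < N) (h : x ^ N ∈ O) : x ∈ O := by
  rcases O.mem_or_inv_mem x with hx | hx
  · exact hx
  · by_cases hx0 : x = 0
    · rw [hx0]
      exact O.zero_mem
    · obtain ⟨m, rfl⟩ : ∃ m, N = m + 1 := ⟨N - 1, by omega⟩
      have h1 : x = x ^ (m + 1) * (x⁻¹) ^ m := by
        rw [pow_succ', inv_pow, mul_assoc, mul_inv_cancel₀ (pow_ne_zero m hx0), mul_one]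
      rw [h1]
      exact O.mul_mem _ _ h (pow_mem hx m)

theorem mem_supp {X : Deg K O} {i : Fin X.m} {j : Fin X.c} {s : X.σ →₀ ℕ} :
    s ∈ X.supp i j ↔ IsLocalRing.residue O (coeff s (X.F i j)) ≠ 0 := by
  rw [Deg.supp, mem_support_iff, coeff_map]

theorem exists_rho {X : Deg K O} {N : ℕ} (hX : X.IsDeg N) (a b : X.α) :
    ∃ ρ : O, Xi X (X.cell b) (X.v b) = Xi X (X.cell a) (X.v b) * (ρ : K) ∧
      (X.cell a < X.cell b → IsLocalRing.residue O ρ = 0) := by
  classical
  obtain ⟨n, hn0, hn1, hn2⟩ := hX.rel b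
  set S := X.supp (X.cell b) with hS
  have hu : ∀ j, ∀ s ∈ S j, IsLocalRing.residue O (coeff s (X.F (X.cell b) j)) ≠ 0 := by
    intro j s hs
    exact mem_supp.1 hs
  set A : O := ∏ j, ∏ s ∈ S j, (coeff s (X.F (X.cell b) j)) ^ n j s with hA
  set B : O := ∏ j, ∏ s ∈ S j, (coeff s (X.F (X.cell a) j)) ^ n j s with hB
  have hAr : IsLocalRing.residue O A ≠ 0 := by
    rw [hA, map_prod]
    refine Finset.prod_ne_zero_iff.2 fun j _ => ?_
    rw [map_prod]
    refine Finset.prod_ne_zero_iff.2 fun s hs => ?_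
    rw [map_pow]
    exact pow_ne_zero _ (hu j s hs)
  have hAu : IsUnit A := by
    by_contra h
    exact hAr ((IsLocalRing.residue_eq_zero_iff A).2 h)
  have hf : ∀ i, (Xi X i (X.v b)) ^ N * (algebraMap O K (∏ j, ∏ s ∈ S j, (coeff s (X.F i j)) ^ n j s)) =
      ∏ j, ∏ s ∈ S j, (coeff s (X.f j)) ^ n j s := by
    intro i
    rw [Xi, prod_rel hn1 hn2, map_prod, ← Finset.prod_mul_distrib]
    refine Finset.prod_congr rfl fun j _ => ?_
    rw [map_prod, ← Finset.prod_mul_distrib]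
    refine Finset.prod_congr rfl fun s _ => ?_
    rw [hX.scale i j s, map_pow, ← mul_pow]
  have hAB : (Xi X (X.cell b) (X.v b)) ^ N * algebraMap O K A =
      (Xi X (X.cell a) (X.v b)) ^ N * algebraMap O K B := by
    rw [hA, hB, hf, hf]
  have hx0 := Xi_ne hX (X.cell a) (X.v b)
  set r : K := Xi X (X.cell b) (X.v b) / Xi X (X.cell a) (X.v b) with hr
  have hrN : r ^ N * algebraMap O K A = algebraMap O K B := by
    rw [hr, div_pow, div_mul_eq_mul_div, hAB, mul_comm, mul_div_assoc,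
      div_self (pow_ne_zero _ hx0), mul_one]
  have hrO : r ∈ O := by
    apply mem_of_pow_mem r N hX.pos
    obtain ⟨w, hw⟩ := hAu.exists_right_inv
    have h1 : r ^ N = algebraMap O K (B * w) := by
      rw [map_mul, ← hrN, mul_assoc, ← map_mul, hw, map_one, mul_one]
    rw [h1]
    exact (B * w).2
  refine ⟨⟨r, hrO⟩, ?_, fun hlt => ?_⟩
  · change _ = _ * r
    rw [hr, mul_div_cancel₀]
    exact hx0
  · by_contra hne
    have h1 : (⟨r, hrO⟩ : O) ^ N * A = B := by
      apply Subtype.ext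
      exact hrN
    have h2 : IsLocalRing.residue O B ≠ 0 := by
      rw [← h1, map_mul, map_pow]
      exact mul_ne_zero (pow_ne_zero _ hne) hAr
    have h3 : ∀ j, ∀ s ∈ S j, IsLocalRing.residue O (coeff s (X.F (X.cell a) j)) ≠ 0 := by
      intro j s hs h0
      apply h2
      rw [hB, map_prod]
      refine Finset.prod_eq_zero (Finset.mem_univ j) ?_
      rw [map_prod]
      refine Finset.prod_eq_zero hs ?_
      rw [map_pow, h0, zero_pow (hn0 j s hs).ne']
    have h4 := hX.mono b a fun j s hs => mem_supp.2 (h3 j s hs)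
    exact absurd hlt (not_lt.2 h4)

end rho

section loc

variable {K : Type} [Field K] {B : Type} [CommRing B] (l : B →+* K) (q : Ideal B)

/-- units of the local ring of `q` -/
def IsU (x : K) : Prop := ∃ b s : B, b ∉ q ∧ s ∉ q ∧ x * l s = l b

variable {l q}

theorem IsU.one [hq : q.IsPrime] : IsU l q 1 :=
  ⟨1, 1, hq.one_notMem, hq.one_notMem, by simp⟩

theorem IsU.mul [hq : q.IsPrime] {x y : K} (hx : IsU l q x) (hy : IsU l q y) : IsU l q (x * y) := by
  obtain ⟨b, s, h1, h2, h3⟩ := hx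
  obtain ⟨b', s', h1', h2', h3'⟩ := hy
  refine ⟨b * b', s * s', fun h => (hq.mem_or_mem h).elim h1 h1', fun h => (hq.mem_or_mem h).elim h2 h2', ?_⟩
  rw [map_mul, map_mul, ← h3, ← h3']
  ring

theorem IsU.pow [hq : q.IsPrime] {x : K} (hx : IsU l q x) (n : ℕ) : IsU l q (x ^ n) := by
  induction n with
  | zero => rw [pow_zero]; exact IsU.one
  | succ n ih => rw [pow_succ]; exact ih.mul hx

theorem IsU.prod [hq : q.IsPrime] {ι : Type*} (s : Finset ι) (f : ι → K) (h : ∀ i ∈ s, IsU l q (f i)) :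
    IsU l q (∏ i ∈ s, f i) := by
  classical
  induction s using Finset.induction_on with
  | empty => simpa using IsU.one
  | insert i s hi ih =>
    rw [Finset.prod_insert hi]
    exact (h i (Finset.mem_insert_self i s)).mul (ih fun j hj => h j (Finset.mem_insert_of_mem hj))

theorem IsU.inv {x : K} (hx : IsU l q x) (hx0 : x ≠ 0) : IsU l q x⁻¹ := by
  obtain ⟨b, s, h1, h2, h3⟩ := hx
  refine ⟨s, b, h2, h1, ?_⟩
  rw [← h3, ← mul_assoc, inv_mul_cancel₀ hx0, one_mul]

theorem IsU.of {b : B} (hb : b ∉ q) [hq : q.IsPrime] : IsU l q (l b) :=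
  ⟨b, 1, hb, hq.one_notMem, by simp⟩

/-- the prime ideal of a subring of the local ring -/
theorem exists_contr (hl : Function.Injective l) (hq : q.IsPrime) (A : Subalgebra ℤ K) (G : Set K)
    (hA : A = Algebra.adjoin ℤ G) (hG : ∀ x ∈ G, x = 0 ∨ IsU l q x) (p : ℕ) (hp : (p : B) ∈ q) :
    ∃ M : Ideal A, M.IsPrime ∧ (p : A) ∈ M ∧ ∀ x : A, IsU l q x → x ∉ M := by
  have hR : ∀ x ∈ A, ∃ b s : B, s ∉ q ∧ x * l s = l b := by
    subst hA
    intro x hx
    induction hx using Algebra.adjoin_induction with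
    | mem x hx =>
      rcases hG x hx with h | ⟨b, s, h1, h2, h3⟩
      · exact ⟨0, 1, hq.one_notMem, by rw [h]; simp⟩
      · exact ⟨b, s, h2, h3⟩
    | algebraMap r => exact ⟨(r : B), 1, hq.one_notMem, by simp⟩
    | add x y hx hy ihx ihy =>
      obtain ⟨b, s, h1, h2⟩ := ihx
      obtain ⟨b', s', h1', h2'⟩ := ihy
      refine ⟨b * s' + b' * s, s * s', fun h => (hq.mem_or_mem h).elim h1 h1', ?_⟩
      rw [map_mul, map_add, map_mul, map_mul, ← h2, ← h2']
      ring
    | mul x y hx hy ihx ihy =>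
      obtain ⟨b, s, h1, h2⟩ := ihx
      obtain ⟨b', s', h1', h2'⟩ := ihy
      refine ⟨b * b', s * s', fun h => (hq.mem_or_mem h).elim h1 h1', ?_⟩
      rw [map_mul, map_mul, ← h2, ← h2']
      ring
  let M : Ideal A :=
    { carrier := {x | ∃ b s : B, b ∈ q ∧ s ∉ q ∧ (x : K) * l s = l b}
      zero_mem' := ⟨0, 1, q.zero_mem, hq.one_notMem, by simp⟩
      add_mem' := by
        rintro x y ⟨b, s, h1, h2, h3⟩ ⟨b', s', h1', h2', h3'⟩
        refine ⟨b * s' + b' * s, s * s', q.add_mem (q.mul_mem_right _ h1) (q.mul_mem_right _ h1'),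
          fun h => (hq.mem_or_mem h).elim h2 h2', ?_⟩
        rw [map_mul, map_add, map_mul, map_mul, ← h3, ← h3']
        push_cast
        ring
      smul_mem' := by
        rintro c x ⟨b, s, h1, h2, h3⟩
        obtain ⟨b', s', h1', h2'⟩ := hR c c.2
        refine ⟨b' * b, s' * s, q.mul_mem_left _ h1, fun h => (hq.mem_or_mem h).elim h1' h2, ?_⟩
        rw [map_mul, map_mul, ← h3, ← h2']
        push_cast [smul_eq_mul]
        ring }
  have hM : ∀ x, x ∈ M ↔ ∃ b s : B, b ∈ q ∧ s ∉ q ∧ (x : K) * l s = l b := fun x => Iff.rfl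
  have hU : ∀ x : A, IsU l q x → x ∉ M := by
    rintro x ⟨b, s, h1, h2, h3⟩ hx
    obtain ⟨b', s', h1', h2', h3'⟩ := (hM x).1 hx
    have h4 : b * s' = b' * s := by
      apply hl
      rw [map_mul, map_mul, ← h3, ← h3']
      ring
    have h5 : b * s' ∈ q := by
      rw [h4]
      exact q.mul_mem_right _ h1'
    exact (hq.mem_or_mem h5).elim h1 h2'
  refine ⟨M, ⟨?_, ?_⟩, ?_, hU⟩
  · rw [Ideal.ne_top_iff_one]
    exact hU 1 (by
      rw [OneMemClass.coe_one]
      exact IsU.one)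
  · rintro x y hxy
    obtain ⟨b, s, h1, h2, h3⟩ := (hM _).1 hxy
    obtain ⟨b1, s1, h4, h5⟩ := hR x x.2
    obtain ⟨b2, s2, h6, h7⟩ := hR y y.2
    have h8 : b1 * b2 * s = b * (s1 * s2) := by
      apply hl
      rw [map_mul, map_mul, map_mul, map_mul, ← h3, ← h5, ← h7]
      push_cast
      ring
    have h9 : b1 * b2 * s ∈ q := by
      rw [h8]
      exact q.mul_mem_right _ h1
    rcases hq.mem_or_mem ((hq.mem_or_mem h9).resolve_right h2) with h | h
    · exact Or.inl ((hM x).2 ⟨b1, s1, h, h4, h5⟩)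
    · exact Or.inr ((hM y).2 ⟨b2, s2, h, h6, h7⟩)
  · exact (hM _).2 ⟨p, 1, hp, hq.one_notMem, by simp⟩

end loc

end Pool.Agent.V8H79.TR
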