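import Pool.Agent.V8H79.TR.PD

/-!
# If the initial forms are ordinary then the equations are ordinary
-/

set_option autoImplicit false

open MvPolynomial

namespace Pool.Agent.V8H79.TR

theorem lift_poly {R σ : Type*} [CommRing R] (B : Subalgebra ℤ R) (P : MvPolynomial σ R)
    (h : ∀ u ∈ P.support, coeff u P ∈ B) : ∃ Q : MvPolynomial σ B, map (algebraMap B R) Q = P := by
  classical
  refine ⟨∑ u : P.support, monomial u.1 ⟨coeff u.1 P, h u.1 u.2⟩, ?_⟩
  rw [map_sum]
  simp only [map_monomial]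
  have : ∀ u : P.support, algebraMap B R ⟨coeff u.1 P, h u.1 u.2⟩ = coeff u.1 P := fun _ => rfl
  simp only [this]
  rw [Finset.sum_coe_sort P.support fun u => monomial u (coeff u P)]
  exact P.support_sum_monomial_coeff

theorem map_hws {R S σ α : Type*} [CommRing R] [CommRing S] (φ : R →+* S) (p : ℕ)
    (v : α → σ →₀ ℕ) (f : MvPolynomial σ R) (a b : α) :
    φ (hws p v f a b) = hws p v (map φ f) a b := by
  simp only [hws, Matrix.of_apply]
  rw [← coeff_map, map_mul, map_monomial, map_one, map_pow]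

theorem map_hws_det {R S σ α : Type*} [CommRing R] [CommRing S] [Fintype α] [DecidableEq α]
    (φ : R →+* S) (p : ℕ) (v : α → σ →₀ ℕ) (f : MvPolynomial σ R) :
    φ (hws p v f).det = (hws p v (map φ f)).det := by
  rw [RingHom.map_det]
  congr 1
  ext a b
  exact map_hws φ p v f a b

section

variable {K : Type} [Field K] {O : ValuationSubring K}

/-- an element of `O` which is `x` or `x⁻¹` -/
noncomputable def wO (O : ValuationSubring K) (x : K) : O := by
  classical
  exact if h : x ∈ O then ⟨x, h⟩ else ⟨x⁻¹, (O.mem_or_inv_mem x).resolve_left h⟩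

theorem wO_or (x : K) : (wO O x : K) = x ∨ (wO O x : K) = x⁻¹ := by
  classical
  unfold wO
  split_ifs with h
  · exact Or.inl rfl
  · exact Or.inr rfl

theorem wO_ne {x : K} (hx : x ≠ 0) : wO O x ≠ 0 := by
  intro h
  have h1 : (wO O x : K) = 0 := by rw [h]; rfl
  rcases wO_or (O := O) x with h2 | h2
  · exact hx (h2.symm.trans h1)
  · exact hx (inv_eq_zero.1 (h2.symm.trans h1))

/-- the comparison of the Hasse–Witt matrices -/
theorem det_hws {B : Type} [CommRing B] (l : B →+* K) {X : Deg K O} {N : ℕ} (hX : X.IsDeg N)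
    (ρ : X.α → X.α → B)
    (hρ : ∀ a b, Xi X (X.cell b) (X.v b) = Xi X (X.cell a) (X.v b) * l (ρ a b))
    (F : Fin X.m → Fin X.c → MvPolynomial X.σ B)
    (hF : ∀ i j u, l (coeff u (F i j)) = algebraMap O K (coeff u (X.F i j))) (p : ℕ) (hp : 1 ≤ p) :
    (hws p X.v (∏ j, X.f j)).det = (∏ a, Xi X (X.cell a) (X.v a) ^ p) *
      ((∏ a, (Xi X (X.cell a) (X.v a))⁻¹) *
        l (Matrix.of fun a b => ρ a b * hws p X.v (∏ j, F (X.cell a) j) a b).det) := by
  classical
  have h1 : ∀ a b, hws p X.v (∏ j, X.f j) a b = Xi X (X.cell a) (X.v a) ^ p *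
      ((Xi X (X.cell b) (X.v b))⁻¹ * l (ρ a b * hws p X.v (∏ j, F (X.cell a) j) a b)) := by
    intro a b
    have h2 := hws_scale X.f (fun j => map l (F (X.cell a) j)) (X.τ (X.cell a)) (X.y (X.cell a))
      (fun j u => by
        rw [coeff_map, hF]
        exact hX.scale _ _ _) X.v p hp a b
    have h3 : hws p X.v (∏ j, map l (F (X.cell a) j)) a b =
        l (hws p X.v (∏ j, F (X.cell a) j) a b) := by
      rw [map_hws, map_prod]
    rw [h3] at h2
    have h2' : hws p X.v (∏ j, X.f j) a b * Xi X (X.cell a) (X.v b) =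
      Xi X (X.cell a) (X.v a) ^ p * l (hws p X.v (∏ j, F (X.cell a) j) a b) := h2
    have h4 : hws p X.v (∏ j, X.f j) a b * Xi X (X.cell b) (X.v b) =
        Xi X (X.cell a) (X.v a) ^ p * l (ρ a b * hws p X.v (∏ j, F (X.cell a) j) a b) := by
      rw [hρ a b, map_mul]
      calc hws p X.v (∏ j, X.f j) a b * (Xi X (X.cell a) (X.v b) * l (ρ a b))
          = hws p X.v (∏ j, X.f j) a b * Xi X (X.cell a) (X.v b) * l (ρ a b) := by ring
        _ = Xi X (X.cell a) (X.v a) ^ p * l (hws p X.v (∏ j, F (X.cell a) j) a b) * l (ρ a b) := by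
          rw [h2']
        _ = _ := by ring
    have h5 := Xi_ne hX (X.cell b) (X.v b)
    rw [eq_comm, mul_left_comm, ← h4, mul_comm, mul_assoc, mul_inv_cancel₀ h5, mul_one]
  have h6 : hws p X.v (∏ j, X.f j) = Matrix.of fun a b => Xi X (X.cell a) (X.v a) ^ p *
      (Matrix.of fun a b => (Xi X (X.cell b) (X.v b))⁻¹ * ((Matrix.of fun a b =>
        ρ a b * hws p X.v (∏ j, F (X.cell a) j) a b).map l) a b) a b := by
    ext a b
    exact h1 a b
  rw [h6, Matrix.det_mul_column, Matrix.det_mul_row, RingHom.map_det]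
  rfl

/-- block triangular matrices -/
theorem det_ne_of_blocks {L α : Type} [Field L] [Fintype α] [DecidableEq α] {m : ℕ}
    (cell : α → Fin m) (M : Matrix α α L) (h : ∀ a b, cell a < cell b → M a b = 0)
    (h' : ∀ i, (M.toSquareBlock cell i).det ≠ 0) : M.det ≠ 0 := by
  have h1 : M.transpose.BlockTriangular cell := fun a b hab => h b a hab
  rw [← Matrix.det_transpose, h1.det_fintype]
  refine Finset.prod_ne_zero_iff.2 fun i _ => ?_
  have h2 : M.transpose.toSquareBlock cell i = (M.toSquareBlock cell i).transpose := rfl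
  rw [h2, Matrix.det_transpose]
  exact h' i

theorem main1 {ι : Type} [Fintype ι] (X : ι → Deg K O) (N : ℕ) (hX : ∀ c, (X c).IsDeg N) (P : Set ℕ)
    (h : DenseOrd P fun s : (Σ c, Fin (X c).m) => (X s.1).init s.2) :
    DenseOrd P fun c => (X c).toCI := by
  classical
  intro A hA FA hFA g hg
  obtain ⟨G, hG⟩ := hA
  have hg' : (g : K) ≠ 0 := fun h0 => hg (Subtype.ext h0)
  -- finitely many nonzero elements of `K`
  obtain ⟨T, hT, hT0, hT1, hT2, hT3, hT4⟩ : ∃ T : Set K, T.Finite ∧ (∀ x ∈ T, x ≠ 0) ∧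
      (∀ x ∈ G, x = 0 ∨ x ∈ T) ∧ (g : K) ∈ T ∧ (∀ c i j, (X c).τ i j ∈ T) ∧
      ∀ c i l, (X c).y i l ∈ T := by
    refine ⟨({x ∈ (G : Set K) | x ≠ 0} ∪ {(g : K)}) ∪
      ((⋃ c, ⋃ i, Set.range ((X c).τ i)) ∪ ⋃ c, ⋃ i, Set.range ((X c).y i)), ?_, ?_, ?_, ?_, ?_, ?_⟩
    · refine ((G.finite_toSet.subset fun x hx => hx.1).union (Set.finite_singleton _)).union
        ((Set.finite_iUnion fun c => Set.finite_iUnion fun i => Set.finite_range _).union
          (Set.finite_iUnion fun c => Set.finite_iUnion fun i => Set.finite_range _))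
    · rintro x ((hx | hx) | (hx | hx))
      · exact hx.2
      · rw [Set.mem_singleton_iff.1 hx]
        exact hg'
      · simp only [Set.mem_iUnion, Set.mem_range] at hx
        obtain ⟨c, i, j, rfl⟩ := hx
        exact (hX c).τ0 i j
      · simp only [Set.mem_iUnion, Set.mem_range] at hx
        obtain ⟨c, i, j, rfl⟩ := hx
        exact (hX c).y0 i j
    · intro x hx
      by_cases h0 : x = 0
      · exact Or.inl h0
      · exact Or.inr (Or.inl (Or.inl ⟨hx, h0⟩))
    · exact Or.inl (Or.inr rfl)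
    · intro c i j
      exact Or.inr (Or.inl (Set.mem_iUnion.2 ⟨c, Set.mem_iUnion.2 ⟨i, ⟨j, rfl⟩⟩⟩))
    · intro c i j
      exact Or.inr (Or.inr (Set.mem_iUnion.2 ⟨c, Set.mem_iUnion.2 ⟨i, ⟨j, rfl⟩⟩⟩))
  choose ρ hρ hρ0 using fun c => exists_rho (hX c)
  -- a finitely generated subring of the valuation ring
  obtain ⟨Z, hZ, hZ1, hZ2, hZ3⟩ : ∃ Z : Set O, Z.Finite ∧ (∀ x ∈ T, wO O x ∈ Z) ∧
      (∀ c a b, ρ c a b ∈ Z) ∧ ∀ c i j, ∀ u ∈ ((X c).F i j).support, coeff u ((X c).F i j) ∈ Z := by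
    refine ⟨wO O '' T ∪ ((⋃ c, ⋃ a, Set.range (ρ c a)) ∪
      ⋃ c, ⋃ i, ⋃ j, (fun u => coeff u ((X c).F i j)) '' ((X c).F i j).support), ?_, ?_, ?_, ?_⟩
    · exact (hT.image _).union ((Set.finite_iUnion fun c => Set.finite_iUnion fun a =>
        Set.finite_range _).union (Set.finite_iUnion fun c => Set.finite_iUnion fun i =>
          Set.finite_iUnion fun j => (Finset.finite_toSet _).image _))
    · exact fun x hx => Or.inl ⟨x, hx, rfl⟩
    · exact fun c a b => Or.inr (Or.inl (Set.mem_iUnion.2 ⟨c, Set.mem_iUnion.2 ⟨a, ⟨b, rfl⟩⟩⟩))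
    · exact fun c i j u hu => Or.inr (Or.inr (Set.mem_iUnion.2 ⟨c, Set.mem_iUnion.2 ⟨i,
        Set.mem_iUnion.2 ⟨j, ⟨u, hu, rfl⟩⟩⟩⟩))
  obtain ⟨B, hB⟩ : ∃ B : Subalgebra ℤ O, B = Algebra.adjoin ℤ Z := ⟨_, rfl⟩
  have hZB : ∀ x ∈ Z, x ∈ B := fun x hx => by
    rw [hB]
    exact Algebra.subset_adjoin hx
  have hBfg : B.FG := ⟨hZ.toFinset, by rw [hB, Set.Finite.coe_toFinset]⟩
  have hBft : Algebra.FiniteType ℤ B := B.fg_iff_finiteType.1 hBfg
  have hBn : IsNoetherianRing B := Algebra.FiniteType.isNoetherianRing ℤ B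
  -- the image in the residue field
  let res : O →ₐ[ℤ] IsLocalRing.ResidueField O := (IsLocalRing.residue O).toIntAlgHom
  let B1 : Subalgebra ℤ (IsLocalRing.ResidueField O) := B.map res
  have hB1 : B1.FG := hBfg.map res
  let r0 : B →+* B1 :=
    ((res.comp B.val).codRestrict B1 fun x => ⟨x.1, x.2, rfl⟩).toRingHom
  have hr0 : ∀ x : B, ((r0 x : B1) : IsLocalRing.ResidueField O) = IsLocalRing.residue O x :=
    fun x => rfl
  choose F' hF' using fun c i j => lift_poly B ((X c).F i j) fun u hu => hZB _ (hZ3 c i j u hu)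
  have hF'' : ∀ c i j u, ((coeff u (F' c i j) : B) : O) = coeff u ((X c).F i j) := by
    intro c i j u
    rw [← hF' c i j, coeff_map]
    rfl
  obtain ⟨N1, hN1⟩ := h B1 hB1 (fun s j => map r0 (F' s.1 s.2 j)) (fun s j => by
    change map (algebraMap B1 _) (map r0 (F' s.1 s.2 j)) = map _ ((X s.1).F s.2 j)
    rw [map_map, ← hF' s.1 s.2 j, map_map]
    rfl) 1 one_ne_zero
  -- the product of the units
  let t : K → B := fun x => if hx : wO O x ∈ B then ⟨wO O x, hx⟩ else 1
  have ht : ∀ x ∈ T, ((t x : B) : O) = wO O x := fun x hx => by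
    have : wO O x ∈ B := hZB _ (hZ1 x hx)
    simp [t, this]
  have ht0 : ∀ x ∈ T, t x ≠ 0 := fun x hx h0 => by
    have h1 := ht x hx
    rw [h0] at h1
    exact wO_ne (O := O) (hT0 x hx) h1.symm
  let hh : B := ∏ x ∈ hT.toFinset, t x
  have hhh : hh ≠ 0 := Finset.prod_ne_zero_iff.2 fun x hx => ht0 x (hT.mem_toFinset.1 hx)
  obtain ⟨N2, hN2⟩ := exists_below B hh hhh
  refine ⟨max N1 N2, fun p hp hpp hpP => ?_⟩
  obtain ⟨M', hM', hpM', -, hdet⟩ := hN1 p ((le_max_left _ _).trans hp) hpp hpP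
  have hM'p : M'.IsPrime := hM'.isPrime
  obtain ⟨q, hq, hpq, hqn, hhq⟩ := hN2 p ((le_max_right _ _).trans hp) hpp (M'.comap r0)
    (Ideal.comap_isPrime r0 M') (by rw [Ideal.mem_comap, map_natCast]; exact hpM')
  -- the embedding
  let l : B →+* K := (algebraMap O K).comp B.val.toRingHom
  have hl : Function.Injective l := fun x y hxy => Subtype.ext (Subtype.ext hxy)
  have hUT : ∀ x ∈ T, IsU l q x := by
    intro x hx
    have h1 : t x ∉ q := fun h0 => hhq (by
      obtain ⟨c, hc⟩ : t x ∣ hh := Finset.dvd_prod_of_mem t (hT.mem_toFinset.2 hx)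
      rw [hc]
      exact q.mul_mem_right _ h0)
    have h2 : IsU l q (l (t x)) := IsU.of h1
    have h3 : l (t x) = (wO O x : K) := by
      change ((t x : B) : K) = _
      rw [ht x hx]
    rcases wO_or (O := O) x with h4 | h4
    · rwa [h3, h4] at h2
    · rw [h3, h4] at h2
      have := h2.inv (inv_ne_zero (hT0 x hx))
      rwa [inv_inv] at this
  have hXi : ∀ c i u, IsU l q (Xi (X c) i u) := fun c i u =>
    (IsU.prod _ _ fun j _ => hUT _ (hT3 c i j)).mul
      (IsU.prod _ _ fun k _ => (hUT _ (hT4 c i k)).pow _)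
  obtain ⟨M0, hM0, hpM0, hUM0⟩ := exists_contr hl hq A G hG.symm
    (fun x hx => (hT1 x hx).imp id (hUT x)) p hpq
  -- the determinants are units
  have hD : ∀ c, IsU l q ((hws p (X c).v (∏ j, FA c j)).det : A) := by
    intro c
    let ρ' : (X c).α → (X c).α → B := fun a b => ⟨ρ c a b, hZB _ (hZ2 c a b)⟩
    have h1 : (((hws p (X c).v (∏ j, FA c j)).det : A) : K) =
        (hws p (X c).v (∏ j, (X c).f j)).det := by
      change algebraMap A K _ = _
      rw [map_hws_det, map_prod]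
      simp only [hFA]
    rw [h1, det_hws l (hX c) ρ' (hρ c) (F' c) (fun i j u => by
      change (((coeff u (F' c i j) : B) : O) : K) = _
      rw [hF'']
      rfl) p hpp.one_lt.le]
    have h2 : ∀ a, IsU l q (Xi (X c) ((X c).cell a) ((X c).v a)) := fun a => hXi c _ _
    refine (IsU.prod _ _ fun a _ => (h2 a).pow p).mul
      ((IsU.prod _ _ fun a _ => (h2 a).inv (Xi_ne (hX c) _ _)).mul (IsU.of fun hmem => ?_))
    have h3 := hqn hmem
    rw [Ideal.mem_comap] at h3
    -- reduction modulo `M'`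
    let L := B1 ⧸ M'
    let iL : Field L := Ideal.Quotient.field M'
    let ψ : B →+* L := (Ideal.Quotient.mk M').comp r0
    have h4 : ψ (Matrix.of fun a b => ρ' a b * hws p (X c).v (∏ j, F' c ((X c).cell a) j) a b).det
        = 0 := Ideal.Quotient.eq_zero_iff_mem.2 h3
    rw [RingHom.map_det] at h4
    refine det_ne_of_blocks (X c).cell _ (fun a b hab => ?_) (fun i => ?_) h4
    · change ψ (ρ' a b * _) = 0
      have h5 : r0 (ρ' a b) = 0 := Subtype.ext (hρ0 c a b hab)
      rw [map_mul]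
      change (Ideal.Quotient.mk M') (r0 (ρ' a b)) * _ = 0
      rw [h5, map_zero, zero_mul]
    · have h5 := hdet ⟨c, i⟩
      refine fun h0 => h5 (Eq.trans (congrArg Matrix.det ?_) h0)
      symm
      ext a b
      change ψ (ρ' a.1 b.1 * hws p (X c).v (∏ j, F' c ((X c).cell a.1) j) a.1 b.1) = _
      have h6 : ρ' a.1 b.1 = 1 := by
        apply hl
        have h7 := hρ c a.1 b.1
        rw [a.2, b.2] at h7
        have h8 := Xi_ne (hX c) i ((X c).v b.1)
        rw [map_one]
        exact (mul_left_cancel₀ h8 (by rw [mul_one]; exact h7)).symm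
      rw [h6, one_mul, map_hws, map_prod, a.2]
      have h9 : ∀ j, map ψ (F' c i j) = map (Ideal.Quotient.mk M') (map r0 (F' c i j)) := fun j => by
        rw [map_map]
      simp only [h9]
      rfl
  have hs : g * ∏ c, (hws p (X c).v (∏ j, FA c j)).det ∉ M0 := by
    apply hUM0
    have h1 : ((g * ∏ c, (hws p (X c).v (∏ j, FA c j)).det : A) : K) =
        (g : K) * ∏ c, (((hws p (X c).v (∏ j, FA c j)).det : A) : K) := by
      push_cast
      rfl
    rw [h1]
    exact (hUT _ hT2).mul (IsU.prod _ _ fun c _ => hD c)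
  obtain ⟨M, hM1, hM2, hM3⟩ := exists_max_of_prime A ⟨G, hG⟩ M0 hM0 _ hs
  refine ⟨M, hM1, hM2 hpM0, fun hgM => hM3 (M.mul_mem_right _ hgM), fun c h0 => hM3 ?_⟩
  have h1 : (hws p (X c).v (∏ j, FA c j)).det ∈ M := by
    rw [← Ideal.Quotient.eq_zero_iff_mem, map_hws_det, map_prod]
    exact h0
  obtain ⟨d, hd⟩ : (hws p (X c).v (∏ j, FA c j)).det ∣
      ∏ c, (hws p (X c).v (∏ j, FA c j)).det := Finset.dvd_prod_of_mem
        (fun c => (hws p (X c).v (∏ j, FA c j)).det) (Finset.mem_univ c)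
  rw [hd]
  exact M.mul_mem_left _ (M.mul_mem_right _ h1)

end

end Pool.Agent.V8H79.TR
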