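import Pool.Agent.V8H79.TR.PE

/-!
# Simplicial cells
-/

set_option autoImplicit false

open MvPolynomial

namespace Pool.Agent.V8H79.TR

theorem prod_monomial' {R σ ι : Type*} [CommRing R] (s : Finset ι) (e : ι → σ →₀ ℕ) (d : ι → R) :
    ∏ j ∈ s, (monomial (e j) (d j) : MvPolynomial σ R) = monomial (∑ j ∈ s, e j) (∏ j ∈ s, d j) := by
  classical
  induction s using Finset.induction_on with
  | empty => simp
  | insert i s hi ih =>
    rw [Finset.prod_insert hi, ih, monomial_mul, Finset.sum_insert hi, Finset.prod_insert hi]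

section

variable {L σ : Type} [Field L] {c : ℕ} (f : Fin c → MvPolynomial σ L)
  (S : Fin c → Finset (σ →₀ ℕ)) (hS : ∀ j, (f j).support = S j)

include hS in
theorem expand [DecidableEq (σ →₀ ℕ)] (n : ℕ) : (∏ j, f j) ^ n = ∑ κ ∈ Fintype.piFinset fun j => Finset.piAntidiag (S j) n,
    monomial (∑ j, ∑ s ∈ S j, κ j s • s)
      (∏ j, ((Nat.multinomial (S j) (κ j) : L) * ∏ s ∈ S j, coeff s (f j) ^ κ j s)) := by
  have h1 : ∀ j, f j ^ n = ∑ k ∈ Finset.piAntidiag (S j) n, monomial (∑ s ∈ S j, k s • s)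
      ((Nat.multinomial (S j) k : L) * ∏ s ∈ S j, coeff s (f j) ^ k s) := by
    intro j
    conv_lhs => rw [← (f j).support_sum_monomial_coeff, hS j]
    rw [Finset.sum_pow_eq_sum_piAntidiag]
    refine Finset.sum_congr rfl fun k _ => ?_
    simp only [monomial_pow]
    rw [prod_monomial', ← C_mul_monomial]
    congr 1
  rw [← Finset.prod_pow, Finset.prod_congr rfl fun j _ => h1 j, Finset.prod_univ_sum]
  refine Finset.sum_congr rfl fun κ _ => ?_
  rw [prod_monomial']

variable {α : Type} {N p : ℕ}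

/-- the exponents in the expansion are unique -/
theorem uniq {u w : σ →₀ ℕ} (hN : 0 < N) (hp : 1 ≤ p) (hpN : N ∣ p - 1) (hsim : Simplicial S)
    {n m : Fin c → (σ →₀ ℕ) → ℕ}
    (hn0 : ∀ j, ∀ s ∈ S j, 0 < n j s) (hn1 : ∀ j, ∑ s ∈ S j, n j s = N)
    (hn2 : ∑ j, ∑ s ∈ S j, n j s • s = N • u)
    (hm0 : ∀ j, ∀ s ∈ S j, 0 < m j s) (hm1 : ∀ j, ∑ s ∈ S j, m j s = N)
    (hm2 : ∑ j, ∑ s ∈ S j, m j s • s = N • w)
    (κ : Fin c → (σ →₀ ℕ) → ℕ) (hκ1 : ∀ j, ∑ s ∈ S j, κ j s = p - 1)
    (hκ2 : w + ∑ j, ∑ s ∈ S j, κ j s • s = p • u) :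
    u = w ∧ ∀ j, ∀ s ∈ S j, N * κ j s = (p - 1) * n j s := by
  obtain ⟨E, hE⟩ : ∃ E, ∑ j, ∑ s ∈ S j, κ j s • s = E := ⟨_, rfl⟩
  rw [hE] at hκ2
  have hz := hsim (fun j s => (N : ℤ) * κ j s + m j s - p * n j s) (fun j => by
    rw [Finset.sum_sub_distrib, Finset.sum_add_distrib, ← Finset.mul_sum, ← Finset.mul_sum]
    have h1 : (∑ s ∈ S j, (κ j s : ℤ)) = (p : ℤ) - 1 := by
      rw [← Nat.cast_sum, hκ1 j]
      push_cast [hp]
      ring
    have h2 : (∑ s ∈ S j, (m j s : ℤ)) = N := by rw [← Nat.cast_sum, hm1 j]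
    have h3 : (∑ s ∈ S j, (n j s : ℤ)) = N := by rw [← Nat.cast_sum, hn1 j]
    rw [h1, h2, h3]
    ring) (fun l => by
    have ev : ∀ (x : Fin c → (σ →₀ ℕ) → ℕ) (y : σ →₀ ℕ), ∑ j, ∑ s ∈ S j, x j s • s = y →
        ∑ j, ∑ s ∈ S j, (x j s : ℤ) * (s l : ℤ) = y l := by
      intro x y hxy
      have := DFunLike.congr_fun hxy l
      simp only [Finsupp.coe_finsetSum, Finset.sum_apply, Finsupp.smul_apply, smul_eq_mul] at this
      exact_mod_cast this
    have h1 := ev n _ hn2
    have h2 := ev m _ hm2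
    have h3 := ev κ E hE
    have h4 : (w l : ℤ) + (E l : ℤ) = p * u l := by
      have := DFunLike.congr_fun hκ2 l
      simp only [Finsupp.add_apply, Finsupp.smul_apply, smul_eq_mul] at this
      exact_mod_cast this
    simp only [sub_mul, add_mul, Finset.sum_sub_distrib, Finset.sum_add_distrib, mul_assoc,
      ← Finset.mul_sum]
    rw [h1, h2, h3]
    simp only [Finsupp.smul_apply, smul_eq_mul]
    push_cast
    linear_combination (N : ℤ) * h4)
  obtain ⟨t, ht⟩ := hpN
  have hp' : (p : ℤ) = N * t + 1 := by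
    have : p = N * t + 1 := by omega
    exact_mod_cast this
  have hnm : ∀ j, ∀ s ∈ S j, n j s = m j s := by
    intro j s hs
    have h1 := hz j s hs
    have h2 : n j s ≤ N := by
      rw [← hn1 j]
      exact Finset.single_le_sum (fun _ _ => Nat.zero_le _) hs
    have h3 : m j s ≤ N := by
      rw [← hm1 j]
      exact Finset.single_le_sum (fun _ _ => Nat.zero_le _) hs
    have h4 := hn0 j s hs
    have h5 := hm0 j s hs
    have h6 : (n j s : ℤ) - m j s = N * (κ j s - t * n j s) := by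
      rw [hp'] at h1
      linear_combination (-1 : ℤ) * h1
    have h7 : (N : ℤ) ∣ (n j s : ℤ) - m j s := ⟨_, h6⟩
    have h8 : (n j s : ℤ) - m j s = 0 := by
      apply Int.eq_zero_of_abs_lt_dvd h7
      rw [abs_lt]
      constructor <;> omega
    omega
  have huw : u = w := by
    have h1 : N • u = N • w := by
      rw [← hn2, ← hm2]
      exact Finset.sum_congr rfl fun j _ => Finset.sum_congr rfl fun s hs => by rw [hnm j s hs]
    ext l
    have := DFunLike.congr_fun h1 l
    simp only [Finsupp.smul_apply, smul_eq_mul] at this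
    exact Nat.eq_of_mul_eq_mul_left hN this
  refine ⟨huw, fun j s hs => ?_⟩
  have h1 := hz j s hs
  rw [← hnm j s hs] at h1
  have h2 : ((N * κ j s : ℕ) : ℤ) = (((p - 1) * n j s : ℕ) : ℤ) := by
    push_cast [hp]
    linear_combination h1
  exact_mod_cast h2

end

/-- for simplicial cells the Hasse–Witt matrix is invertible -/
theorem det_simplicial {L σ α : Type} [Field L] [Fintype α] [DecidableEq α] {c : ℕ}
    (f : Fin c → MvPolynomial σ L) (v : α → σ →₀ ℕ) (hv : Function.Injective v) {N p : ℕ}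
    (hp : p.Prime) (hpL : (p : L) = 0) (hN : 0 < N) (hpN : N ∣ p - 1)
    (hsim : Simplicial fun j => (f j).support)
    (hrel : ∀ a, RelInt N (fun j => (f j).support) (v a)) :
    (hws p v (∏ j, f j)).det ≠ 0 := by
  classical
  choose n hn0 hn1 hn2 using hrel
  have hp1 : 1 ≤ p := hp.one_lt.le
  have hent : ∀ a b, hws p v (∏ j, f j) a b =
      ∑ κ ∈ Fintype.piFinset fun j => Finset.piAntidiag (f j).support (p - 1),
        if v b + ∑ j, ∑ s ∈ (f j).support, κ j s • s = p • v a then
          ∏ j, ((Nat.multinomial (f j).support (κ j) : L) *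
            ∏ s ∈ (f j).support, coeff s (f j) ^ κ j s) else 0 := by
    intro a b
    simp only [hws, Matrix.of_apply]
    rw [expand f (fun j => (f j).support) (fun _ => rfl), Finset.mul_sum, coeff_sum]
    refine Finset.sum_congr rfl fun κ _ => ?_
    rw [monomial_mul, coeff_monomial, one_mul]
  have hoff : ∀ a b, a ≠ b → hws p v (∏ j, f j) a b = 0 := by
    intro a b hab
    rw [hent]
    refine Finset.sum_eq_zero fun κ hκ => if_neg fun h => hab (hv ?_)
    have hκ' := fun j => (Finset.mem_piAntidiag.1 (Fintype.mem_piFinset.1 hκ j)).1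
    exact (uniq _ hN hp1 hpN hsim (hn0 a) (hn1 a) (hn2 a) (hn0 b) (hn1 b) (hn2 b) κ hκ' h).1
  have hdiag : ∀ a, hws p v (∏ j, f j) a a ≠ 0 := by
    intro a
    obtain ⟨t, ht⟩ := hpN
    let κ0 : Fin c → (σ →₀ ℕ) → ℕ := fun j s => if s ∈ (f j).support then t * n a j s else 0
    have hκ0 : ∀ j, ∀ s ∈ (f j).support, κ0 j s = t * n a j s := fun j s hs => if_pos hs
    have h1 : κ0 ∈ Fintype.piFinset fun j => Finset.piAntidiag (f j).support (p - 1) := by
      rw [Fintype.mem_piFinset]
      intro j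
      rw [Finset.mem_piAntidiag]
      refine ⟨?_, fun s hs => ?_⟩
      · rw [Finset.sum_congr rfl (hκ0 j), ← Finset.mul_sum, hn1 a j, ht, mul_comm]
      · by_contra h
        exact hs (if_neg h)
    have h2 : v a + ∑ j, ∑ s ∈ (f j).support, κ0 j s • s = p • v a := by
      have h3 : ∑ j, ∑ s ∈ (f j).support, κ0 j s • s = t • (N • v a) := by
        rw [← hn2 a, Finset.smul_sum]
        refine Finset.sum_congr rfl fun j _ => ?_
        rw [Finset.smul_sum]
        exact Finset.sum_congr rfl fun s hs => by rw [hκ0 j s hs, mul_smul]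
      rw [h3, ← mul_smul, mul_comm t N, ← ht]
      obtain ⟨r, rfl⟩ : ∃ r, p = r + 1 := ⟨p - 1, by omega⟩
      rw [Nat.add_sub_cancel, succ_nsmul']
    rw [hent, Finset.sum_eq_single κ0]
    · rw [if_pos h2]
      refine Finset.prod_ne_zero_iff.2 fun j _ => mul_ne_zero ?_ (Finset.prod_ne_zero_iff.2
        fun s hs => pow_ne_zero _ (mem_support_iff.1 hs))
      intro h0
      have hch : CharP L p := by
        obtain ⟨q, hq⟩ := CharP.exists L
        have h4 : q ∣ p := (CharP.cast_eq_zero_iff L q p).1 hpL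
        rcases (Nat.dvd_prime hp).1 h4 with h5 | h5
        · exact absurd h5 (CharP.char_ne_one L q)
        · rw [← h5]
          exact hq
      have h4 : p ∣ Nat.multinomial (f j).support (κ0 j) := (CharP.cast_eq_zero_iff L p _).1 h0
      have h5 := Nat.multinomial_spec (f j).support (κ0 j)
      have h6 : ∑ s ∈ (f j).support, κ0 j s = p - 1 :=
        (Finset.mem_piAntidiag.1 (Fintype.mem_piFinset.1 h1 j)).1
      rw [h6] at h5
      have h7 : p ∣ (p - 1).factorial := by
        rw [← h5]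
        exact h4.mul_left _
      have h8 := (Nat.Prime.dvd_factorial hp).1 h7
      omega
    · intro κ hκ hne
      refine if_neg fun h => hne ?_
      have hκ' := fun j => Finset.mem_piAntidiag.1 (Fintype.mem_piFinset.1 hκ j)
      have h3 := (uniq _ hN hp1 ⟨t, ht⟩ hsim (hn0 a) (hn1 a) (hn2 a) (hn0 a) (hn1 a) (hn2 a) κ
        (fun j => (hκ' j).1) h).2
      funext j s
      by_cases hs : s ∈ (f j).support
      · have h4 := h3 j s hs
        rw [ht, mul_assoc] at h4
        rw [hκ0 j s hs]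
        exact Nat.eq_of_mul_eq_mul_left hN h4
      · have h4 : κ j s = 0 := by
          by_contra h5
          exact hs ((hκ' j).2 s h5)
        rw [h4]
        exact (if_neg hs).symm
    · intro h
      exact absurd h1 h
  have hM : hws p v (∏ j, f j) = Matrix.diagonal fun a => hws p v (∏ j, f j) a a := by
    ext a b
    by_cases h : a = b
    · rw [h, Matrix.diagonal_apply_eq]
    · rw [Matrix.diagonal_apply_ne _ h, hoff a b h]
  rw [hM, Matrix.det_diagonal]
  exact Finset.prod_ne_zero_iff.2 fun a _ => hdiag a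

end Pool.Agent.V8H79.TR
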