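import Pool.Agent.V8H79.TR.PF

/-!
# The main theorem
-/

set_option autoImplicit false

open MvPolynomial

namespace Pool.Agent.V8H79.TR

/-- simplicial cells can be added -/
theorem dense_add {k ι : Type} [Field k] [Fintype ι] (P : Set ℕ) (Y : ι → CI k) (D : Set ι)
    (hD : DenseOrd P fun s : D => Y s.1) (N : ℕ) (hN : 0 < N)
    (hv : ∀ i, Function.Injective (Y i).v)
    (hs : ∀ i (_ : (Y i).α), i ∉ D → Simplicial fun j => ((Y i).f j).support)
    (hrel : ∀ i a, RelInt N (fun j => ((Y i).f j).support) ((Y i).v a)) :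
    DenseOrd {p | p ∈ P ∧ ((∃ i, i ∉ D ∧ Nonempty (Y i).α) → N ∣ p - 1)} Y := by
  classical
  intro A hA F hF g hg
  let h : A := g * ∏ i, ∏ j, ∏ s ∈ ((Y i).f j).support, coeff s (F i j)
  have hco : ∀ i j s, algebraMap A k (coeff s (F i j)) = coeff s ((Y i).f j) := by
    intro i j s
    rw [← hF i j, coeff_map]
  have hh : h ≠ 0 := by
    refine mul_ne_zero hg (Finset.prod_ne_zero_iff.2 fun i _ => Finset.prod_ne_zero_iff.2 fun j _ =>
      Finset.prod_ne_zero_iff.2 fun s hs => fun h0 => ?_)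
    have h1 := hco i j s
    rw [h0, map_zero] at h1
    exact mem_support_iff.1 hs h1.symm
  obtain ⟨N0, hN0⟩ := hD A hA (fun s => F s.1) (fun s => hF s.1) h hh
  refine ⟨N0, fun p hp hpp hpP => ?_⟩
  obtain ⟨M, hM, hpM, hhM, hdet⟩ := hN0 p hp hpp hpP.1
  refine ⟨M, hM, hpM, fun h0 => hhM (M.mul_mem_right _ h0), fun i => ?_⟩
  by_cases hi : i ∈ D
  · exact hdet ⟨i, hi⟩
  by_cases hne : Nonempty (Y i).α
  · have hNp : N ∣ p - 1 := hpP.2 ⟨i, hi, hne⟩
    have hc : ∀ j, ∀ s ∈ ((Y i).f j).support, coeff s (F i j) ∉ M := by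
      intro j s hs h0
      apply hhM
      refine M.mul_mem_left _ ?_
      obtain ⟨c, hc⟩ : coeff s (F i j) ∣ ∏ i, ∏ j, ∏ s ∈ ((Y i).f j).support, coeff s (F i j) :=
        (Finset.dvd_prod_of_mem (fun s => coeff s (F i j)) hs).trans
          ((Finset.dvd_prod_of_mem (fun j => ∏ s ∈ ((Y i).f j).support, coeff s (F i j))
            (Finset.mem_univ j)).trans
            (Finset.dvd_prod_of_mem (fun i => ∏ j, ∏ s ∈ ((Y i).f j).support, coeff s (F i j))
              (Finset.mem_univ i)))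
      rw [hc]
      exact M.mul_mem_right _ h0
    have hsupp : ∀ j, (map (Ideal.Quotient.mk M) (F i j)).support = ((Y i).f j).support := by
      intro j
      ext s
      rw [mem_support_iff, coeff_map, ne_eq, Ideal.Quotient.eq_zero_iff_mem]
      constructor
      · intro h1
        rw [mem_support_iff]
        intro h2
        apply h1
        have h3 : coeff s (F i j) = 0 := by
          apply Subtype.ext
          have := hco i j s
          rw [h2] at this
          exact this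
        rw [h3]
        exact M.zero_mem
      · exact hc j s
    let iL : Field (A ⧸ M) := Ideal.Quotient.field M
    have hpL : (p : A ⧸ M) = 0 := by
      rw [← map_natCast (Ideal.Quotient.mk M), Ideal.Quotient.eq_zero_iff_mem]
      exact hpM
    obtain ⟨a⟩ := hne
    refine det_simplicial (L := A ⧸ M) (fun j => map (Ideal.Quotient.mk M) (F i j)) (Y i).v (hv i)
      hpp hpL hN hNp ?_ ?_
    · simp only [hsupp]
      exact hs i a hi
    · simp only [hsupp]
      exact hrel i
  · have : IsEmpty (Y i).α := not_nonempty_iff.1 hne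
    rw [Matrix.det_isEmpty]
    have : Nontrivial (A ⧸ M) := Ideal.Quotient.nontrivial_iff.2 hM.ne_top
    exact one_ne_zero

theorem dense_empty {k : Type} [Field k] [CharZero k] {ι : Type} [IsEmpty ι] (Y : ι → CI k) :
    DenseOrd Set.univ Y := by
  intro A hA F hF g hg
  obtain ⟨N, hN⟩ := exists_closed A hA g hg
  refine ⟨N, fun p hp hpp _ => ?_⟩
  obtain ⟨M, h1, h2, h3⟩ := hN p hp hpp
  exact ⟨M, h1, h2, h3, fun i => isEmptyElim i⟩

variable {K : Type} [Field K] {O : ValuationSubring K} {ι : Type} [Fintype ι]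

theorem main2 (X : ι → Deg K O) (N : ℕ) (hN : 0 < N) (hX : ∀ c, (X c).IsDeg N) (P : Set ℕ)
    (D : Set (Σ c, Fin (X c).m))
    (hD : DenseOrd P fun s : D => (X s.1.1).init s.1.2)
    (hs : ∀ c a, (⟨c, (X c).cell a⟩ : Σ c, Fin (X c).m) ∉ D → Simplicial ((X c).supp ((X c).cell a))) :
    DenseOrd {p | p ∈ P ∧ ((∃ c a, (⟨c, (X c).cell a⟩ : Σ c, Fin (X c).m) ∉ D) → N ∣ p - 1)}
      fun c => (X c).toCI := by
  apply main1 X N hX
  have h1 := dense_add P (fun s : (Σ c, Fin (X c).m) => (X s.1).init s.2) D hD N hN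
    (fun s a b hab => Subtype.ext ((hX s.1).inj hab))
    (fun s a hsD => by
      have h3 : (X s.1).cell a.1 = s.2 := a.2
      have h4 := hs s.1 a.1 (by rw [h3]; exact hsD)
      rw [h3] at h4
      exact h4)
    (fun s a => by
      have h3 : (X s.1).cell a.1 = s.2 := a.2
      have h4 := (hX s.1).rel a.1
      rw [h3] at h4
      exact h4)
  intro A hA F hF g hg
  obtain ⟨N0, hN0⟩ := h1 A hA F hF g hg
  refine ⟨N0, fun p hp hpp hpP => hN0 p hp hpp ⟨hpP.1, ?_⟩⟩
  rintro ⟨s, h2, ⟨a⟩⟩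
  have h3 : (X s.1).cell a.1 = s.2 := a.2
  exact hpP.2 ⟨s.1, a.1, by rw [h3]; exact h2⟩

theorem main3 [CharZero (IsLocalRing.ResidueField O)] (X : ι → Deg K O) (N : ℕ) (hN : 0 < N)
    (hX : ∀ c, (X c).IsDeg N) (hs : ∀ c a, Simplicial ((X c).supp ((X c).cell a))) :
    DenseOrd {p | N ∣ p - 1} fun c => (X c).toCI := by
  have h1 := main2 X N hN hX Set.univ ∅ (dense_empty _) fun c a _ => hs c a
  intro A hA F hF g hg
  obtain ⟨N0, hN0⟩ := h1 A hA F hF g hg
  exact ⟨N0, fun p hp hpp hpP => hN0 p hp hpp ⟨trivial, fun _ => hpP⟩⟩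

end Pool.Agent.V8H79.TR
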