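import Pool.Agent.V8H79.TR.PG

/-!
# Strictly convex exponents
-/

set_option autoImplicit false

open MvPolynomial

namespace Pool.Agent.V8H79.TR

/-- the square of the distance -/
def dsq {σ : Type} [Fintype σ] (u v : σ →₀ ℕ) : ℕ := ∑ l, ((u l - v l) ^ 2 + (v l - u l) ^ 2)

theorem dsq_add {σ : Type} [Fintype σ] (u v : σ →₀ ℕ) :
    ∑ l, u l ^ 2 + ∑ l, v l ^ 2 = (∑ l, 2 * v l * u l) + dsq u v := by
  unfold dsq
  rw [← Finset.sum_add_distrib, ← Finset.sum_add_distrib]
  refine Finset.sum_congr rfl fun l _ => ?_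
  rcases le_total (u l) (v l) with h | h
  · obtain ⟨c, hc⟩ := Nat.exists_eq_add_of_le h
    rw [hc, Nat.sub_eq_zero_of_le (Nat.le_add_right _ _), Nat.add_sub_cancel_left]
    ring
  · obtain ⟨c, hc⟩ := Nat.exists_eq_add_of_le h
    rw [hc, Nat.sub_eq_zero_of_le (Nat.le_add_right _ _), Nat.add_sub_cancel_left]
    ring

theorem dsq_eq_zero {σ : Type} [Fintype σ] {u v : σ →₀ ℕ} (h : dsq u v = 0) : u = v := by
  ext l
  unfold dsq at h
  have h1 := (Finset.sum_eq_zero_iff.1 h) l (Finset.mem_univ l)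
  have h2 : u l - v l = 0 := by
    have : (u l - v l) ^ 2 = 0 := by omega
    exact pow_eq_zero_iff (two_ne_zero) |>.1 this
  have h3 : v l - u l = 0 := by
    have : (v l - u l) ^ 2 = 0 := by omega
    exact pow_eq_zero_iff (two_ne_zero) |>.1 this
  omega

theorem dsq_self {σ : Type} [Fintype σ] (u : σ →₀ ℕ) : dsq u u = 0 := by
  simp [dsq]

variable {K : Type} [Field K] {O : ValuationSubring K} {σ α : Type} [Fintype σ] [Fintype α]
  [DecidableEq α]

/-- the theorem for a single degeneration -/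
theorem main4 [CharZero (IsLocalRing.ResidueField O)] {c m : ℕ} (f : Fin c → MvPolynomial σ K)
    (v : α → σ →₀ ℕ) (cell : α → Fin m) (τ : Fin m → Fin c → K) (y : Fin m → σ → K)
    (F : Fin m → Fin c → MvPolynomial σ O) (N : ℕ) (h0 : 0 < N) (h1 : Function.Injective v)
    (h2 : ∀ i j, τ i j ≠ 0) (h3 : ∀ i l, y i l ≠ 0)
    (h4 : ∀ i j u, coeff u (f j) = τ i j * (∏ l, y i l ^ u l) * algebraMap O K (coeff u (F i j)))
    (h5 : ∀ a, RelInt N (fun j => (map (IsLocalRing.residue O) (F (cell a) j)).support) (v a))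
    (h6 : ∀ a b, (∀ j, (map (IsLocalRing.residue O) (F (cell a) j)).support ⊆
      (map (IsLocalRing.residue O) (F (cell b) j)).support) → cell a ≤ cell b)
    (h7 : ∀ a, Simplicial fun j => (map (IsLocalRing.residue O) (F (cell a) j)).support) :
    DenseOrd {p | N ∣ p - 1}
      fun _ : Unit => (⟨σ, α, inferInstance, inferInstance, c, f, v⟩ : CI K) :=
  main3 (fun _ : Unit => (⟨⟨σ, α, inferInstance, inferInstance, c, f, v⟩, inferInstance, m, cell,
    τ, y, F⟩ : Deg K O)) N h0 (fun _ => ⟨h0, h1, h2, h3, h4, h5, h6⟩) (fun _ a => h7 a)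

/-- the scaled equation of the exponent `v b` -/
noncomputable def quadF (t : O) (w : σ →₀ ℕ) (a : (σ →₀ ℕ) → O) (f : MvPolynomial σ K) :
    MvPolynomial σ O :=
  ∑ u ∈ f.support, monomial u (a u * t ^ dsq u w)

theorem coeff_quadF [DecidableEq K] (t : O) (w : σ →₀ ℕ) (a : (σ →₀ ℕ) → O) (f : MvPolynomial σ K)
    (u : σ →₀ ℕ) : coeff u (quadF t w a f) = if coeff u f = 0 then 0 else a u * t ^ dsq u w := by
  classical
  rw [quadF, coeff_sum]
  simp only [coeff_monomial]
  rw [Finset.sum_ite_eq' f.support u]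
  simp only [mem_support_iff, ne_eq, ite_not]

theorem supp_quad (t : O) (ht : IsLocalRing.residue O t = 0) (w : σ →₀ ℕ) (a : (σ →₀ ℕ) → O)
    (ha : IsLocalRing.residue O (a w) ≠ 0) (f : MvPolynomial σ K) (hf : coeff w f ≠ 0) :
    (map (IsLocalRing.residue O) (quadF t w a f)).support = {w} := by
  classical
  ext s
  rw [Finset.mem_singleton, mem_support_iff, coeff_map, coeff_quadF]
  constructor
  · intro h
    by_contra hne
    apply h
    split_ifs
    · exact map_zero _
    · have h2 : dsq s w ≠ 0 := fun h3 => hne (dsq_eq_zero h3)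
      rw [map_mul, map_pow, ht, zero_pow h2, mul_zero]
  · rintro rfl
    rw [if_neg hf, dsq_self, pow_zero, mul_one]
    exact ha

/-- strictly convex exponents: all exponents are cells -/
theorem quad_main [CharZero (IsLocalRing.ResidueField O)] (t : O) (ht0 : t ≠ 0)
    (ht : IsLocalRing.residue O t = 0)
    (v : α → σ →₀ ℕ) (hv : Function.Injective v) (a : (σ →₀ ℕ) → O)
    (ha : ∀ b, IsLocalRing.residue O (a (v b)) ≠ 0)
    (f : MvPolynomial σ K) (hf : ∀ u, coeff u f = (t : K) ^ (∑ l, u l ^ 2) * a u) :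
    DenseOrd Set.univ fun _ : Unit => (⟨σ, α, inferInstance, inferInstance, 1, fun _ => f, v⟩ : CI K) := by
  classical
  have ht0' : (t : K) ≠ 0 := fun h => ht0 (Subtype.ext h)
  have hfv : ∀ b, coeff (v b) f ≠ 0 := by
    intro b
    rw [hf]
    refine mul_ne_zero (pow_ne_zero _ ht0') fun h => ha b ?_
    have : a (v b) = 0 := Subtype.ext h
    rw [this, map_zero]
  let e := Fintype.equivFin α
  have hsup : ∀ b, (map (IsLocalRing.residue O) (quadF t (v (e.symm (e b))) a f)).support =
      {v b} := by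
    intro b
    rw [e.symm_apply_apply]
    exact supp_quad t ht (v b) a (ha b) f (hfv b)
  have h1 := main4 (O := O) (c := 1) (m := Fintype.card α) (fun _ => f) v e
    (fun i _ => ((t : K) ^ (∑ l, v (e.symm i) l ^ 2))⁻¹)
    (fun i l => (t : K) ^ (2 * v (e.symm i) l)) (fun i _ => quadF t (v (e.symm i)) a f) 1 one_pos
    hv (fun i j => inv_ne_zero (pow_ne_zero _ ht0')) (fun i l => pow_ne_zero _ ht0')
    (fun i j u => by
      rw [coeff_quadF]
      split_ifs with h3
      · rw [h3, map_zero, mul_zero]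
      · have h4 : (∏ l, ((t : K) ^ (2 * v (e.symm i) l)) ^ u l) =
            (t : K) ^ (∑ l, 2 * v (e.symm i) l * u l) := by
          rw [← Finset.prod_pow_eq_pow_sum]
          exact Finset.prod_congr rfl fun l _ => (pow_mul _ _ _).symm
        rw [h4, hf u, map_mul, map_pow]
        have h5 := dsq_add u (v (e.symm i))
        have h6 : (t : K) ^ (∑ l, v (e.symm i) l ^ 2) ≠ 0 := pow_ne_zero _ ht0'
        have h7 : (t : K) ^ (∑ l, u l ^ 2) * (t : K) ^ (∑ l, v (e.symm i) l ^ 2) =
            (t : K) ^ (∑ l, 2 * v (e.symm i) l * u l) * (t : K) ^ dsq u (v (e.symm i)) := by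
          rw [← pow_add, ← pow_add, h5]
        have h8 : (algebraMap O K) t = (t : K) := rfl
        have h9 : (algebraMap O K) (a u) = (a u : K) := rfl
        rw [h8, h9, mul_assoc, inv_mul_eq_div, eq_div_iff h6]
        linear_combination (a u : K) * h7)
    (fun b => by
      rw [hsup b]
      exact ⟨fun _ _ => 1, fun _ _ _ => one_pos, fun j => by simp, by simp⟩)
    (fun b b' h => by
      have h4 := h 0
      rw [hsup b, hsup b', Finset.singleton_subset_singleton] at h4
      rw [hv h4])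
    (fun b => by
      rw [hsup b]
      intro z hz1 hz2 j s hs
      rw [Finset.mem_singleton] at hs
      have h3 := hz1 j
      rw [Finset.sum_singleton] at h3
      rw [hs]
      exact h3)
  intro A hA F hF g hg
  obtain ⟨N0, hN0⟩ := h1 A hA F hF g hg
  exact ⟨N0, fun p hp hpp _ => hN0 p hp hpp (one_dvd _)⟩

end Pool.Agent.V8H79.TR
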